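import Pool.Agent.P.MP_0e1483_co.Lower

namespace Pool.Agent.Results.MP_0e1483_co.MorphicFlex

open Pool.Agent.P.MP_0e1483_co

/-- Q1: the greatest flexibility of a morphic ternary square-free word is `3/16`. -/
theorem result :
    IsGreatest {f : ℝ | ∃ u : ℕ → Fin 3, Morphic u ∧ SquareFree u ∧ f = flex u} (3 / 16) := by
  refine ⟨⟨uu, uu_morphic, uu_squareFree, flex_uu.symm⟩, ?_⟩
  rintro f ⟨u, _, hu, rfl⟩
  exact flex_le hu

end Pool.Agent.Results.MP_0e1483_co.MorphicFlex
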